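import Pool.Agent.R959.LD2.Cor

/-!
# Sign vectors for real matrices with bounded `l1` norms of the rows and columns

There is an absolute constant `C` such that every real `n × m` matrix `V` with entries of absolute
value at most `1`, rows of `l1` norm at most `R` and columns of `l1` norm at most `Δ ≤ R` has a sign
vector `y` with `‖V y‖_∞ ≤ C √R`. Without the hypothesis `Δ ≤ R` the same `y` satisfies
`|(V y)_i| ≤ C √(1 + Δ + ‖v^i‖₁ + R^(2/5))` for every row `i`.
-/

set_option autoImplicit false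

namespace Pool.Agent.Results.MP_aa9902_co.SqrtRowBound

theorem result :
    ∃ C : ℝ, 0 < C ∧ ∀ (n m : ℕ) (R Δ : ℝ) (V : Fin n → Fin m → ℝ),
      (∀ i j, |V i j| ≤ 1) → (∀ i, ∑ j, |V i j| ≤ R) → (∀ j, ∑ i, |V i j| ≤ Δ) →
      ∃ y : Fin m → ℝ, (∀ j, y j = 1 ∨ y j = -1) ∧
        (Δ ≤ R → ∀ i, |∑ j, V i j * y j| ≤ C * Real.sqrt R) ∧
        ∀ i, |∑ j, V i j * y j| ≤
          C * Real.sqrt (1 + Δ + ∑ j, |V i j| + R ^ (2/5 : ℝ)) :=
  Pool.Agent.R959.LD2.cor_real Pool.Agent.R959.LD2.real_main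

end Pool.Agent.Results.MP_aa9902_co.SqrtRowBound
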